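import Pool.Agent.Zk81.Kempe.Prism

/-!
# MP_de689f_co, Q2: Kempe equivalence of colourings of `3K_1`-free graphs

The constants `c` such that any two `(k+c)`-colourings of any `k`-colourable `3K_1`-free graph are
Kempe equivalent are exactly the constants `c ≥ 1`.

`KempeStep α β` (from `Pool.Agent.H411R2.WSK.Defs`): the proper colouring `β` arises from the proper
colouring `α` by a single Kempe change, that is by exchanging two colours `a ≠ b` on one connected
component of the subgraph induced by the vertices of colour `a` or `b`.

Proof for `c ≥ 1`. Colour classes have at most two vertices. Fix a colouring `γ` with the least number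
of colours, so that some of the `k + c` colours is not used by `γ`, and let `α` be any colouring. While
some class `{u, v}` of `γ` is not a class of `α`: if `u` is alone in its class of `α`, give `v` the
colour of `u`. If no such class of `γ` has a vertex alone in its class of `α`, then every vertex
alone in its class of `α` is alone in its class of `γ`, so `α` uses at most as many colours as `γ`
and misses a colour; give this colour to `u` and `v`. The number of common classes increases, and in
the end `α` equals `γ` up to a permutation of the colours. For `c = 0` the 3-prism is a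
counterexample.
-/

set_option autoImplicit false

namespace Pool.Agent.Results.MP_de689f_co.ThreeKOneFree

open Pool.Agent.H411R2.WSK Pool.Agent.Zk81.Kempe

theorem result : ∀ c : ℕ,
    (∀ (V : Type) [Finite V] (G : SimpleGraph V), IsEmpty ((⊥ : SimpleGraph (Fin 3)) ↪g G) →
      ∀ k : ℕ, 1 ≤ k → G.Colorable k →
        ∀ α β : G.Coloring (Fin (k + c)), Relation.ReflTransGen KempeStep α β) ↔ 1 ≤ c := by
  intro c
  constructor
  · intro h
    by_contra hc
    have hc0 : c = 0 := by omega
    subst hc0
    refine not_reach (h (Fin 6) prism ⟨fun f => ?_⟩ 3 (by norm_num) ⟨colA⟩ colA colB)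
    have hn : ∀ i j : Fin 3, ¬ prism.Adj (f i) (f j) := by
      intro i j hij
      rw [f.map_adj_iff] at hij
      exact hij
    exact prism_indep (f 0) (f 1) (f 2) (fun e => absurd (f.injective e) (by decide))
      (fun e => absurd (f.injective e) (by decide)) (fun e => absurd (f.injective e) (by decide))
      (hn 0 1) (hn 1 2) (hn 0 2)
  · intro hc V _ G hG k _ hk α β
    refine reach_all ?_ hk (by omega) α β
    intro x y z hxy hyz hxz h1 h2 h3
    have h1' : ¬ G.Adj y x := fun h => h1 h.symm
    have h2' : ¬ G.Adj z y := fun h => h2 h.symm
    have h3' : ¬ G.Adj z x := fun h => h3 h.symm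
    have key : ∀ i j : Fin 3, ¬ G.Adj (![x, y, z] i) (![x, y, z] j) := by
      intro i j
      fin_cases i <;> fin_cases j
      · exact G.irrefl
      · exact h1
      · exact h3
      · exact h1'
      · exact G.irrefl
      · exact h2
      · exact h3'
      · exact h2'
      · exact G.irrefl
    refine hG.false ⟨⟨![x, y, z], ?_⟩, fun {i j} => ⟨fun h => absurd h (key i j), fun h => h.elim⟩⟩
    intro i j hij
    fin_cases i <;> fin_cases j <;> simp_all

end Pool.Agent.Results.MP_de689f_co.ThreeKOneFree
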