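import Pool.Agent.Zk81.Zeck.Bound

/-!
MP_b74c76_co, Q1: the maximum order complexity of the Zeckendorf parity sequence is not
asymptotic to `N / (1 + φ ^ 2)`; the quotient `M(N) / N` has no limit.
-/

set_option autoImplicit false

namespace Pool.Agent.Results.MP_b74c76_co.NoLimit

open Filter Topology

/-- The parity of the sum of digits of the Zeckendorf representation of `n`. -/
def parity (n : ℕ) : Bool := decide ((Nat.zeckendorf n).length % 2 = 1)

/-- The `N`-th maximum order complexity of the binary sequence `u`: the least `k` for which there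
is a feedback function `f` on words of length `k` that generates the first `N` letters. -/
noncomputable def maxOrder (u : ℕ → Bool) (N : ℕ) : ℕ :=
  sInf {k : ℕ | ∃ f : (Fin k → Bool) → Bool, ∀ i, i + k < N → u (i + k) = f fun t => u (i + t)}

open Zk81.Zeck in
theorem small_often : ∃ᶠ N : ℕ in atTop, (maxOrder parity N : ℝ) / N ≤ 24 / 100 := by
  rw [frequently_atTop]
  intro N0
  have h1 := phi_gt
  have h2 := phi_lt
  have ht : Tendsto (fun r : ℕ => Real.goldenRatio ^ r) atTop atTop :=
    tendsto_pow_atTop_atTop_of_one_lt Real.one_lt_goldenRatio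
  obtain ⟨r, hr⟩ := (ht.eventually_ge_atTop (max (N0 : ℝ) 10)).exists
  have hr1 : (N0 : ℝ) ≤ Real.goldenRatio ^ r := le_trans (le_max_left _ _) hr
  have hr2 : (10 : ℝ) ≤ Real.goldenRatio ^ r := le_trans (le_max_right _ _) hr
  have hB := B_ge r
  refine ⟨B r, ?_, ?_⟩
  · have : (N0 : ℝ) ≤ B r := by linarith
    exact_mod_cast this
  · have hpos : (0 : ℝ) < B r := by linarith
    rw [div_le_iff₀ hpos]
    have hu := upper r (⌊(13 + 3 * Real.goldenRatio) * Real.goldenRatio ^ r⌋₊ + 1)
      (by push_cast; exact Nat.lt_floor_add_one _)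
    have hu' : (maxOrder parity (B r) : ℝ) ≤
        ((⌊(13 + 3 * Real.goldenRatio) * Real.goldenRatio ^ r⌋₊ + 1 : ℕ) : ℝ) := by
      exact_mod_cast hu
    have hf := Nat.floor_le (a := (13 + 3 * Real.goldenRatio) * Real.goldenRatio ^ r)
      (by nlinarith)
    push_cast at hu'
    nlinarith

open Zk81.Zeck in
theorem large_often : ∃ᶠ N : ℕ in atTop, 276 / 1000 ≤ (maxOrder parity N : ℝ) / N := by
  rw [frequently_atTop]
  intro N0
  have h1 := phi_gt
  have h2 := phi_lt
  have hsq := phi_sq
  refine ⟨Nat.fib (N0 + 20 + 4) + Nat.fib (N0 + 20 + 2) + 1, ?_, ?_⟩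
  · have := Nat.le_fib_self (n := N0 + 20 + 4) (by omega)
    omega
  · have hl := lower (N0 + 20)
    generalize hj : N0 + 20 = j at hl
    have hl' : ((Nat.fib (j + 2) + 1 : ℕ) : ℝ) ≤
        (maxOrder parity (Nat.fib (j + 4) + Nat.fib (j + 2) + 1) : ℝ) := by
      exact_mod_cast hl
    have hpos : (0 : ℝ) < ((Nat.fib (j + 4) + Nat.fib (j + 2) + 1 : ℕ) : ℝ) := by positivity
    rw [le_div_iff₀ hpos]
    refine le_trans ?_ hl'
    have hψ : |Real.goldenConj| ≤ 1 := by
      have := Real.neg_one_lt_goldenConj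
      have := Real.goldenConj_neg
      rw [abs_le]; constructor <;> linarith
    have e1 : (Nat.fib (j + 3) : ℝ) - Real.goldenRatio * Nat.fib (j + 2) =
        Real.goldenConj ^ (j + 2) := Real.fib_succ_sub_goldenRatio_mul_fib (j + 2)
    have b1 : |Real.goldenConj ^ (j + 2)| ≤ 1 := by
      rw [abs_pow]; exact pow_le_one₀ (abs_nonneg _) hψ
    have e3 : (Nat.fib (j + 4) : ℝ) = Nat.fib (j + 2) + Nat.fib (j + 3) := by
      exact_mod_cast Nat.fib_add_two (n := j + 2)
    have hbig : 20 ≤ Nat.fib (j + 2) := by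
      have h5 := Nat.le_fib_self (n := j + 2) (by omega)
      omega
    have hbig2 : 6765 ≤ Nat.fib (j + 2) := by
      have h6 : Nat.fib 20 ≤ Nat.fib (j + 2) := Nat.fib_mono (by omega)
      have h7 : Nat.fib 20 = 6765 := by decide +kernel
      omega
    have hbig3 : (6765 : ℝ) ≤ Nat.fib (j + 2) := by exact_mod_cast hbig2
    rw [abs_le] at b1
    push_cast
    nlinarith

/-- `M(N) / N` has no limit as `N → ∞`. More precisely it is at most `0.24` for arbitrarily large
`N` and at least `0.276` for arbitrarily large `N`. In particular it does not tend to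
`1 / (1 + φ ^ 2)`. -/
theorem result :
    (∃ᶠ N : ℕ in atTop, (maxOrder parity N : ℝ) / N ≤ 24 / 100) ∧
    (∃ᶠ N : ℕ in atTop, 276 / 1000 ≤ (maxOrder parity N : ℝ) / N) ∧
    (¬ ∃ c : ℝ, Tendsto (fun N : ℕ => (maxOrder parity N : ℝ) / N) atTop (𝓝 c)) ∧
    (¬ Tendsto (fun N : ℕ => (maxOrder parity N : ℝ) / N) atTop
      (𝓝 (1 / (1 + Real.goldenRatio ^ 2)))) := by
  have hno : ¬ ∃ c : ℝ, Tendsto (fun N : ℕ => (maxOrder parity N : ℝ) / N) atTop (𝓝 c) := by
    rintro ⟨c, hc⟩
    rcases lt_or_ge c (276 / 1000) with h | h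
    · have h1 := hc.eventually (gt_mem_nhds h)
      obtain ⟨N, hN1, hN2⟩ := (large_often.and_eventually h1).exists
      linarith
    · have h1 := hc.eventually (lt_mem_nhds (show (24 / 100 : ℝ) < c by linarith))
      obtain ⟨N, hN1, hN2⟩ := (small_often.and_eventually h1).exists
      linarith
  exact ⟨small_often, large_often, hno, fun h => hno ⟨_, h⟩⟩

end Pool.Agent.Results.MP_b74c76_co.NoLimit
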